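import Pool.Agent.Helper74.HG.GoalsG
import Pool.Agent.Helper32.HG.UNF

/-!
# Packet HG-UNFG: the global topological zeta function is determined by one finite field and its extensions

Port of `Pool.Agent.Helper32.HG.UNF`.
-/

set_option autoImplicit false

namespace Pool.Agent.Helper90.HG.UNFG

open Pool.Agent.Helper74.HG Pool.Agent.Helper87.HG.UNIQ Pool.Agent.Helper32.HG.UNF

theorem t : UNFG := by
  intro K _ _ σ _ f L L' hd hd' hL hL'
  obtain ⟨M, hM, hE, hS⟩ := hL
  obtain ⟨M', hM', hE', hS'⟩ := hL'
  have key := sum_rat (p := Nat.card K) (Finite.one_lt_card : 2 ≤ Nat.card K)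
    (M.map toS ++ (M'.map toS).map neg)
    (by
      intro S hS d hd1
      rw [List.mem_append, List.mem_map, List.mem_map] at hS
      rcases hS with ⟨T, hT, rfl⟩ | ⟨S', hS', rfl⟩
      · exact hd T.2 (hM ▸ List.mem_map_of_mem hT) d hd1
      · obtain ⟨T, hT, rfl⟩ := List.mem_map.1 hS'
        exact hd' T.2 (hM' ▸ List.mem_map_of_mem hT) d hd1)
    (by
      intro S hS
      rw [List.mem_append, List.mem_map, List.mem_map] at hS
      rcases hS with ⟨T, hT, rfl⟩ | ⟨S', hS', rfl⟩
      · exact hE T hT
      · obtain ⟨T, hT, rfl⟩ := List.mem_map.1 hS'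
        exact neg_exp (toS T) (Nat.card K) (hE' T hT))
    (by
      intro e he
      obtain ⟨E, _, _, _, hfr⟩ := ext_exists K e he
      rw [List.map_append, List.sum_append, List.map_map, List.map_map, List.map_map]
      have h1 : (M'.map (((fun S => Stratum.ser S (Nat.card K) e) ∘ neg) ∘ toS)).sum =
          - (M'.map ((fun S => S.ser (Nat.card K) e) ∘ toS)).sum := by
        rw [← sum_neg]
        exact congrArg List.sum (List.map_congr_left fun S _ => neg_ser (toS S) (Nat.card K) e)
      rw [h1]
      have h2 : (M.map ((fun S => S.ser (Nat.card K) e) ∘ toS)).sum =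
          (M'.map ((fun S => S.ser (Nat.card K) e) ∘ toS)).sum := by
        have g : ∀ N : List ((ℕ → ℂ) × Str), (N.map ((fun S => S.ser (Nat.card K) e) ∘ toS)).sum =
            (N.map fun T => PowerSeries.C (T.1 (Module.finrank K E)) *
              (T.2.2.map (fac (Nat.card E))).prod).sum := by
          intro N
          refine congrArg List.sum (List.map_congr_left fun T _ => ?_)
          rw [← ser_eq K E T, hfr]
          rfl
        rw [g M, g M']
        ext m
        rw [← hS E m, ← hS' E m]
      rw [h2, add_neg_cancel])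
  rw [List.map_append, List.sum_append, List.map_map, List.map_map, List.map_map] at key
  have h1 : (M'.map ((Stratum.rat ∘ neg) ∘ toS)).sum = - (M'.map (Stratum.rat ∘ toS)).sum := by
    rw [← sum_neg]
    exact congrArg List.sum (List.map_congr_left fun S _ => neg_rat (toS S))
  rw [h1] at key
  have g : ∀ (N : List ((ℕ → ℂ) × Str)) (P : List Str), N.map Prod.snd = P →
      (N.map (Stratum.rat ∘ toS)).sum = (P.map ratS).sum := by
    rintro N P rfl
    rw [List.map_map]
    rfl
  rw [g M L hM, g M' L' hM'] at key
  exact sub_eq_zero.1 (by rw [sub_eq_add_neg]; exact key)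

end Pool.Agent.Helper90.HG.UNFG
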